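import Pool.Agent.N463.MI.Fin

/-!
# Parity of the number of missing integers in partitions (MP_657ff6_co)

For every `n > 34` more partitions of `n` have an even number of missing integers than an odd one.
-/

set_option autoImplicit false

namespace Pool.Agent.Results.MP_657ff6_co.EvenMissing

/-- The number of missing integers of a partition `p` of `n`: the integers `i ≥ 1` smaller than
the largest part of `p` that are not parts of `p`. -/
def missing {n : ℕ} (p : n.Partition) : ℕ :=
  ((Finset.Ico 1 (p.parts.toFinset.sup id)).filter (fun i => i ∉ p.parts)).card

/-- The number of partitions of `n` with an even number of missing integers. -/
def evenCount (n : ℕ) : ℕ := (Finset.univ.filter (fun p : n.Partition => Even (missing p))).card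

/-- The number of partitions of `n` with an odd number of missing integers. -/
def oddCount (n : ℕ) : ℕ := (Finset.univ.filter (fun p : n.Partition => Odd (missing p))).card

/-- For every `n > 34` the number of partitions of `n` with an even number of missing integers is
greater than the number of those with an odd number of missing integers. -/
theorem result : ∀ n : ℕ, 34 < n → oddCount n < evenCount n :=
  Pool.Agent.N463.MI.even_gt_odd

end Pool.Agent.Results.MP_657ff6_co.EvenMissing
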